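import Pool.Agent.X166.EP.Main

/-!
# The finite free entropy power inequality for discriminants

For every `d ≥ 2` and all monic polynomials `p`, `q` of degree `d` with real roots, the finite free
additive convolution `r = p ⊞_d q` is real-rooted and
`Dis(r)^(1/N) ≥ Dis(p)^(1/N) + Dis(q)^(1/N)`, `N = d (d - 1) / 2`.

The proof is in the modules `Pool.Agent.X166.EP.*` of the starting files.
-/

set_option autoImplicit false

open Polynomial Finset

namespace Pool.Agent.W2helper78.Unused.EntropyPower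

/-- The monic polynomial of degree `d` with the real roots `lam 0, …, lam (d-1)`. -/
noncomputable def rootPoly {d : ℕ} (lam : Fin d → ℝ) : ℝ[X] := ∏ i, (X - C (lam i))

/-- The discriminant `∏_{i<j} (lam i - lam j)²` of the polynomial with the roots `lam i`. -/
noncomputable def Dis {d : ℕ} (lam : Fin d → ℝ) : ℝ := ∏ i, ∏ j ∈ Ioi i, (lam i - lam j) ^ 2

/-- `signedCoeff d p j` is the number `a_j` in `p = ∑_j (-1)^j a_j x^(d-j)`. -/
noncomputable def signedCoeff (d : ℕ) (p : ℝ[X]) (j : ℕ) : ℝ := (-1) ^ j * p.coeff (d - j)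

/-- The finite free additive convolution `p ⊞_d q`:
`∑_i (-1)^i x^(d-i) ∑_{j+k=i} ((d-j)! (d-k)! / (d! (d-i)!)) a_j b_k`. -/
noncomputable def boxPlus (d : ℕ) (p q : ℝ[X]) : ℝ[X] :=
  ∑ i ∈ range (d + 1), C ((-1) ^ i * ∑ x ∈ antidiagonal i,
    (((d - x.1).factorial : ℝ) * (d - x.2).factorial / (d.factorial * (d - i).factorial)) *
      signedCoeff d p x.1 * signedCoeff d q x.2) * X ^ (d - i)

/-- **The finite free entropy power inequality (Q1).** Let `d ≥ 2`, `N = d.choose 2`, and let
`p = rootPoly lam`, `q = rootPoly mu` be arbitrary monic polynomials of degree `d` with real roots.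
Then `p ⊞_d q` is of the form `rootPoly nu` (monic of degree `d` with real roots), and for every such
`nu`, `Dis(nu)^(1/N) ≥ Dis(lam)^(1/N) + Dis(mu)^(1/N)`. -/
theorem result (d : ℕ) (hd : 2 ≤ d) (lam mu : Fin d → ℝ) :
    (∃ nu : Fin d → ℝ, boxPlus d (rootPoly lam) (rootPoly mu) = rootPoly nu) ∧
    ∀ nu : Fin d → ℝ, boxPlus d (rootPoly lam) (rootPoly mu) = rootPoly nu →
      Dis lam ^ (1 / (d.choose 2 : ℝ)) + Dis mu ^ (1 / (d.choose 2 : ℝ)) ≤
        Dis nu ^ (1 / (d.choose 2 : ℝ)) :=
  Pool.Agent.X166.EP.entropy_power d hd lam mu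

end Pool.Agent.W2helper78.Unused.EntropyPower
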