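import Pool.Agent.R398.AS.Fin
import Pool.Agent.R398.AS.Inf

/-!
# The generic Ramanujan conjecture for `GL(2)` over a quadratic extension at the inert places

Let `E / K` be a quadratic extension of number fields and let `π` be a unitary cuspidal automorphic
representation of `GL(2)` over `E` (every such `π` is globally generic). The places of `E` above the
places of `K` which are inert in `E` have density zero among the places of `E`, so that the known theorems on
the proportion of the tempered places of `E` do not say anything about them. We show that `π_w` is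
tempered at a proportion of at least `9 / 10` of the inert places `v` of `K` (`w` the place above `v`), and
that the Hecke eigenvalues `a_w` have the moments `E |a_w|² = 1`, `E |a_w|⁴ = 2` of the Sato-Tate law over the
inert places, all with respect to the Dirichlet density on `K`.

The structure `CuspidalGL2` lists what is used of `π`: unitarity of the local components, the bound `7/64`,
convergence of the Rankin-Selberg series of `A⁴ π`, and the analytic properties of the Asai `L`-functions of
`A² π` and `A⁴ π` and of their twists by the quadratic character of `E / K`. They are theorems if `π` is not of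
solvable polyhedral type and `A² π`, `A⁴ π` are not isomorphic to their Galois conjugates.
-/

set_option autoImplicit false

open NumberField IsDedekindDomain Filter Topology
open Pool.Agent.R398.AS (Nm Above Inert CuspidalGL2)

namespace Pool.Agent.W2helper78.Unused.InertPlaces

/-- The places of `K` outside of `S` which are inert in `E`. -/
abbrev InertPlace {K : Type} [Field K] [NumberField K] (E : Type) [Field E] [NumberField E] [Algebra K E]
    (S : Finset (HeightOneSpectrum (𝓞 K))) : Type :=
  {v : HeightOneSpectrum (𝓞 K) // v ∉ S ∧ Inert E v}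

open scoped Classical in
/-- `∑_v f(w) N(v)^{-t}`: the sum over the inert places `v ∉ S` of `K`, where `w` is the place of `E` above `v`. -/
noncomputable def inertSum {K : Type} [Field K] [NumberField K] {E : Type} [Field E] [NumberField E]
    [Algebra K E] (S : Finset (HeightOneSpectrum (𝓞 K))) (f : HeightOneSpectrum (𝓞 E) → ℝ) (t : ℝ) : ℝ :=
  ∑' v : InertPlace E S, (∑ᶠ w ∈ {w : HeightOneSpectrum (𝓞 E) | Above v.1 w}, f w) * (Nm v.1 : ℝ) ^ (-t)

open scoped Classical in
/-- The indicator function of a set of places of `E`. -/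
noncomputable def ind {E : Type} [Field E] [NumberField E] (P : HeightOneSpectrum (𝓞 E) → Prop)
    (w : HeightOneSpectrum (𝓞 E)) : ℝ := if P w then 1 else 0

variable {K E : Type} [Field K] [NumberField K] [Field E] [NumberField E] [Algebra K E]
  {S : Finset (HeightOneSpectrum (𝓞 K))}

open Pool.Agent.R398.AS in
lemma inertSum_eq (f : HeightOneSpectrum (𝓞 E) → ℝ) (t : ℝ) :
    inertSum S f t = ∑' v : IP E S, f (up v.1 v.2.2) * (Nm v.1 : ℝ) ^ (-t) := by
  unfold inertSum
  refine tsum_congr fun v => ?_
  have h1 : {w : HeightOneSpectrum (𝓞 E) | Above v.1 w} = {up v.1 v.2.2} := by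
    ext w
    simp only [Set.mem_ofPred_eq, Set.mem_singleton_iff]
    exact above_iff v.2.2 w
  rw [h1, finsum_mem_singleton]

open Pool.Agent.R398.AS in
/-- Let `E / K` be quadratic, and let `α w = (α_{w,0}, α_{w,1})` be the Satake parameters of a cuspidal
representation `π` of `GL(2)` over `E` with the properties `CuspidalGL2`, `a_w = α_{w,0} + α_{w,1}`. Then, for the
inert places `v ∉ S` of `K` and the places `w` above them, as `t → 1+`:
(1) `∑_v N(v)^{-t} → ∞`;
(2) the means of `|a_w|²` and `|a_w|⁴` tend to `1` and `2`;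
(3) for `Z > 1` the upper Dirichlet density of `{v : |a_w|² ≥ Z}` is at most `1 / (1 + (Z - 1)²)`;
(4) the upper Dirichlet density of the `v` for which `π_w` is not tempered is at most `1 / 10`. -/
theorem result (h2 : Module.finrank K E = 2) (α : HeightOneSpectrum (𝓞 E) → Fin 2 → ℂ)
    (h : CuspidalGL2 S α) :
    Tendsto (fun t => inertSum (E := E) S (fun _ => 1) t) (𝓝[>] 1) atTop ∧
    Tendsto (fun t => inertSum S (fun w => ‖∑ i, α w i‖ ^ 2) t / inertSum (E := E) S (fun _ => 1) t)
      (𝓝[>] 1) (𝓝 1) ∧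
    Tendsto (fun t => inertSum S (fun w => ‖∑ i, α w i‖ ^ 4) t / inertSum (E := E) S (fun _ => 1) t)
      (𝓝[>] 1) (𝓝 2) ∧
    (∀ Z : ℝ, 1 < Z → ∀ ε : ℝ, 0 < ε → ∀ᶠ t in 𝓝[>] (1 : ℝ),
      inertSum S (ind fun w => Z ≤ ‖∑ i, α w i‖ ^ 2) t ≤
        (1 / (1 + (Z - 1) ^ 2) + ε) * inertSum (E := E) S (fun _ => 1) t) ∧
    (∀ ε : ℝ, 0 < ε → ∀ᶠ t in 𝓝[>] (1 : ℝ),
      inertSum S (ind fun w => ¬ ∀ i, ‖α w i‖ = 1) t ≤
        (1 / 10 + ε) * inertSum (E := E) S (fun _ => 1) t) := by
  classical
  have hone : ∀ t, inertSum (E := E) S (fun _ => 1) t = ∑' v : IP E S, (Nm v.1 : ℝ) ^ (-t) := by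
    intro t
    rw [inertSum_eq]
    exact tsum_congr fun v => one_mul _
  have htop : Tendsto (fun t => inertSum (E := E) S (fun _ => 1) t) (𝓝[>] 1) atTop := by
    simp only [hone]
    exact inert_tendsto h2 S
  have hpos : ∀ᶠ t in 𝓝[>] (1 : ℝ), 0 < inertSum (E := E) S (fun _ => 1) t :=
    htop.eventually_gt_atTop 0
  have mom : ∀ (f : HeightOneSpectrum (𝓞 E) → ℝ) (c : ℝ),
      (∀ t : ℝ, 1 < t → Summable fun v : IP E S => f (up v.1 v.2.2) * (Nm v.1 : ℝ) ^ (-t)) →
      (∃ C : ℝ, ∀ t : ℝ, 1 < t →
        |∑' v : IP E S, (f (up v.1 v.2.2) - c) * (Nm v.1 : ℝ) ^ (-t)| ≤ C) →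
      Tendsto (fun t => inertSum S f t / inertSum (E := E) S (fun _ => 1) t) (𝓝[>] 1) (𝓝 c) := by
    rintro f c hs ⟨C, hC⟩
    rw [tendsto_iff_norm_sub_tendsto_zero]
    have h0 : Tendsto (fun t => C / inertSum (E := E) S (fun _ => 1) t) (𝓝[>] 1) (𝓝 0) :=
      htop.const_div_atTop C
    refine squeeze_zero' (Eventually.of_forall fun t => norm_nonneg _) ?_ h0
    filter_upwards [hpos, self_mem_nhdsWithin] with t hp ht
    have ht1 : (1 : ℝ) < t := ht
    have e : inertSum S f t / inertSum (E := E) S (fun _ => 1) t - c =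
        (∑' v : IP E S, (f (up v.1 v.2.2) - c) * (Nm v.1 : ℝ) ^ (-t)) /
          inertSum (E := E) S (fun _ => 1) t := by
      have s0 := summable_IP (E := E) (S := S) ht1
      have e1 : ∑' v : IP E S, (f (up v.1 v.2.2) - c) * (Nm v.1 : ℝ) ^ (-t) =
          inertSum S f t - c * inertSum (E := E) S (fun _ => 1) t := by
        rw [inertSum_eq, hone, ← tsum_mul_left, ← (hs t ht1).tsum_sub (s0.mul_left c)]
        exact tsum_congr fun v => by ring
      rw [e1]
      field_simp
    rw [e, Real.norm_eq_abs, abs_div, abs_of_pos hp]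
    gcongr
    exact hC t ht1
  have dens : ∀ (P : HeightOneSpectrum (𝓞 E) → Prop) (D : ℝ), 0 < D →
      (∃ C : ℝ, ∀ t : ℝ, 1 < t →
        D * ∑' v : IP E S, (if P (up v.1 v.2.2) then (Nm v.1 : ℝ) ^ (-t) else 0) ≤
          ∑' v : IP E S, (Nm v.1 : ℝ) ^ (-t) + C) →
      ∀ ε : ℝ, 0 < ε → ∀ᶠ t in 𝓝[>] (1 : ℝ),
        inertSum S (ind P) t ≤ (1 / D + ε) * inertSum (E := E) S (fun _ => 1) t := by
    rintro P D hD ⟨C, hC⟩ ε hε
    filter_upwards [htop.eventually_ge_atTop (C / D / ε), self_mem_nhdsWithin] with t h3 ht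
    have ht1 : (1 : ℝ) < t := ht
    have h4 := hC t ht1
    have e1 : inertSum S (ind P) t =
        ∑' v : IP E S, (if P (up v.1 v.2.2) then (Nm v.1 : ℝ) ^ (-t) else 0) := by
      rw [inertSum_eq]
      refine tsum_congr fun v => ?_
      unfold ind
      split_ifs <;> simp
    rw [← e1, ← hone] at h4
    rw [div_le_iff₀ hε] at h3
    have h5 : inertSum S (ind P) t ≤ (inertSum (E := E) S (fun _ => 1) t + C) / D := by
      rw [le_div_iff₀ hD]
      linarith
    have h6 : (inertSum (E := E) S (fun _ => 1) t + C) / D =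
        1 / D * inertSum (E := E) S (fun _ => 1) t + C / D := by
      ring
    rw [h6] at h5
    have h7 : (1 / D + ε) * inertSum (E := E) S (fun _ => 1) t =
        1 / D * inertSum (E := E) S (fun _ => 1) t + inertSum (E := E) S (fun _ => 1) t * ε := by
      ring
    rw [h7]
    linarith
  refine ⟨htop, ?_, ?_, ?_, ?_⟩
  · refine mom _ 1 (fun t ht => summable_zz1 h h2 ht) ?_
    exact mean_one h h2
  · have e4 : ∀ w : HeightOneSpectrum (𝓞 E), ‖∑ i, α w i‖ ^ 4 = (‖∑ i, α w i‖ ^ 2) ^ 2 := fun w => by
      ring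
    refine mom _ 2 (fun t ht => ?_) ?_
    · simp only [e4]
      exact summable_zz h h2 ht
    · simp only [e4]
      exact mean_two h h2
  · intro Z hZ
    exact dens _ _ (by positivity) (large h h2 Z hZ)
  · have h10 := dens (fun w => ¬ ∀ i, ‖α w i‖ = 1) 10 (by norm_num) (by
      obtain ⟨C, hC⟩ := nontempered h h2
      refine ⟨C, fun t ht => le_trans (le_of_eq ?_) (hC t ht)⟩
      congr 1
      refine tsum_congr fun v => ?_
      by_cases hv : ∀ i, ‖α (up v.1 v.2.2) i‖ = 1
      · rw [if_neg (not_not.2 hv), if_pos (show ∀ i, ‖aw α v i‖ = 1 from hv)]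
      · rw [if_pos hv, if_neg (show ¬ ∀ i, ‖aw α v i‖ = 1 from hv)])
    exact h10

end Pool.Agent.W2helper78.Unused.InertPlaces
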